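import Pool.Agent.Helper97.Ku.GoalsA

/-! Packet ZFC (MP_47bc22_lc): the quotient of the Boolean-valued universe by an ultrafilter is a
model of ZFC. -/

namespace Pool.Agent.Helper97.Ku.PkZFC

universe u

open BSet

variable {L : Type u} [CompleteBooleanAlgebra L] {U : UF L}

theorem all_iff (hF : G_FULL.{u}) (U : UF L) (φ : BSet L → L) (h : Ext φ) :
    (∀ x : BSet L, U.mem (φ x)) ↔ U.mem (⨅ x, φ x) := by
  constructor
  · intro h1
    obtain ⟨x, -, hx⟩ := (hF L φ (fun _ => ⊤) h (Ext.const _) ⟨BSet.mk PEmpty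
      (fun i => i.elim) (fun i => i.elim), rfl⟩).2
    simp only [top_himp] at hx
    rw [← hx]
    exact h1 x
  · intro h1 x
    exact U.mono (iInf_le _ x) h1

theorem ex_iff (hF : G_FULL.{u}) (U : UF L) (φ : BSet L → L) (h : Ext φ) :
    (∃ x : BSet L, U.mem (φ x)) ↔ U.mem (⨆ x, φ x) := by
  constructor
  · rintro ⟨x, hx⟩
    exact U.mono (le_iSup _ x) hx
  · intro h1
    obtain ⟨x, -, hx⟩ := (hF L φ (fun _ => ⊤) h (Ext.const _) ⟨BSet.mk PEmpty
      (fun i => i.elim) (fun i => i.elim), rfl⟩).1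
    simp only [top_inf_eq] at hx
    rw [← hx] at h1
    exact ⟨x, h1⟩

theorem forall_mk {P : NM U → Prop} (h : ∀ x, P (NM.mk U x)) : ∀ a, P a := by
  intro a
  obtain ⟨x, rfl⟩ := NM.mk_surj U a
  exact h x

theorem update_mk (w : ℕ → BSet L) (i : ℕ) (x : BSet L) :
    (fun j => NM.mk U (Function.update w i x j)) =
      Function.update (fun j => NM.mk U (w j)) i (NM.mk U x) := by
  funext j
  by_cases hj : j = i
  · subst hj; simp
  · simp [hj]

theorem zfc : G_FULL.{u} → G_SETS.{u} → G_COLL.{u} → G_FOUND.{u} → G_INF.{u} → G_CHOICE.{u} →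
    G_LOS.{u} → G_ZFC.{u} := by
  intro hF hS hC hFo hI hCh hL L _ U
  refine ⟨?_, ?_, ?_, ?_, ?_, ?_, ?_, ?_, ?_⟩
  · -- extensionality
    refine forall_mk fun a => forall_mk fun b => fun h => ?_
    rw [NM.mk_eq]
    refine U.mono (ext_le a b) ?_
    rw [← all_iff hF U _ (((Ext.mem_left a).himp (Ext.mem_left b)).inf
      ((Ext.mem_left b).himp (Ext.mem_left a)))]
    intro z
    have h1 := h (NM.mk U z)
    rw [NM.mk_E, NM.mk_E] at h1
    rw [U.inf_iff, U.himp_iff, U.himp_iff]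
    exact ⟨h1.1, h1.2⟩
  · -- foundation
    refine forall_mk fun a => ?_
    rintro ⟨x, hx⟩
    obtain ⟨x, rfl⟩ := NM.mk_surj U x
    rw [NM.mk_E] at hx
    have h1 := U.mono (hFo L a) (U.mono (le_iSup _ x) hx)
    rw [← ex_iff hF U _ ((Ext.mem_left a).inf
      (Ext.iInf fun y => (Ext.mem_right y).himp (Ext.const _)))] at h1
    obtain ⟨x, hx⟩ := h1
    rw [U.inf_iff] at hx
    refine ⟨NM.mk U x, (NM.mk_E U x a).mpr hx.1, forall_mk fun y hy => ?_⟩
    rw [NM.mk_E] at hy ⊢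
    have h2 := U.mono (iInf_le _ y) hx.2
    rw [U.himp_iff] at h2
    exact U.compl.mp (h2 hy)
  · -- pairing
    refine forall_mk fun a => forall_mk fun b => ?_
    obtain ⟨c, hc⟩ := (hS L).1 a b
    refine ⟨NM.mk U c, forall_mk fun x => ?_⟩
    rw [NM.mk_E, hc, U.sup_iff, NM.mk_eq, NM.mk_eq]
  · -- union
    refine forall_mk fun a => ?_
    obtain ⟨c, hc⟩ := (hS L).2.1 a
    refine ⟨NM.mk U c, forall_mk fun x => ?_⟩
    rw [NM.mk_E, hc, ← ex_iff hF U _ ((Ext.mem_left a).inf (Ext.mem_right x))]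
    constructor
    · rintro ⟨y, hy⟩
      rw [U.inf_iff] at hy
      exact ⟨NM.mk U y, (NM.mk_E U y a).mpr hy.1, (NM.mk_E U x y).mpr hy.2⟩
    · rintro ⟨y, hy⟩
      obtain ⟨y, rfl⟩ := NM.mk_surj U y
      rw [NM.mk_E, NM.mk_E] at hy
      exact ⟨y, U.inf_iff.mpr hy⟩
  · -- power set
    refine forall_mk fun a => ?_
    obtain ⟨c, hc⟩ := (hS L).2.2.1 a
    refine ⟨NM.mk U c, forall_mk fun x => ?_⟩
    rw [NM.mk_E, hc, ← all_iff hF U _ ((Ext.mem_left x).himp (Ext.mem_left a))]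
    constructor
    · intro h
      refine forall_mk fun z hz => ?_
      rw [NM.mk_E] at hz ⊢
      exact U.himp_iff.mp (h z) hz
    · intro h z
      have h1 := h (NM.mk U z)
      rw [NM.mk_E, NM.mk_E] at h1
      exact U.himp_iff.mpr h1
  · -- infinity
    obtain ⟨c, ⟨o, ho1, ho2⟩, hc⟩ := hI L
    refine ⟨NM.mk U c, ⟨NM.mk U o, ?_, forall_mk fun x => ?_⟩, forall_mk fun x hx => ?_⟩
    · rw [NM.mk_E, ho1]; exact U.top
    · rw [NM.mk_E, ho2]; exact U.not_bot
    · rw [NM.mk_E] at hx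
      have h1 := U.mono (hc x) hx
      rw [← ex_iff hF U _ ((Ext.mem_left c).inf (Ext.iInf fun z =>
        ((Ext.mem_right z).himp (Ext.const _)).inf ((Ext.const _).himp (Ext.mem_right z))))] at h1
      obtain ⟨y, hy⟩ := h1
      rw [U.inf_iff] at hy
      refine ⟨NM.mk U y, (NM.mk_E U y c).mpr hy.1, forall_mk fun z => ?_⟩
      have h2 := U.mono (iInf_le _ z) hy.2
      rw [U.inf_iff, U.himp_iff, U.himp_iff, U.sup_iff] at h2
      rw [NM.mk_E, NM.mk_E, NM.mk_eq]
      exact ⟨h2.1, h2.2⟩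
  · -- separation
    intro φ w
    refine forall_mk fun a => ?_
    choose w' hw' using fun i => NM.mk_surj U (w i)
    have hw : w = fun i => NM.mk U (w' i) := funext fun i => (hw' i).symm
    obtain ⟨b, hb⟩ := (hS L).2.2.2 (fun x => φ.val (Function.update w' 0 x))
      (Fml.val_ext φ w' 0) a
    refine ⟨NM.mk U b, forall_mk fun x => ?_⟩
    rw [NM.mk_E, hb, U.inf_iff, NM.mk_E, hw, ← update_mk, hL]
  · -- replacement
    intro φ w
    refine forall_mk fun a => fun hfun => ?_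
    choose w' hw' using fun i => NM.mk_surj U (w i)
    have hw : w = fun i => NM.mk U (w' i) := funext fun i => (hw' i).symm
    have hsat : ∀ x y : BSet L, φ.sat (NM.E (U := U))
        (Function.update (Function.update w 0 (NM.mk U x)) 1 (NM.mk U y)) ↔
        U.mem (φ.val (Function.update (Function.update w' 0 x) 1 y)) := by
      intro x y
      rw [hw, ← update_mk, ← update_mk, hL]
    have he1 : ∀ x, Ext (fun y => φ.val (Function.update (Function.update w' 0 x) 1 y)) :=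
      fun x => Fml.val_ext φ (Function.update w' 0 x) 1
    have he2 : ∀ y, Ext (fun x => φ.val (Function.update (Function.update w' 0 x) 1 y)) := by
      intro y
      have h1 : (fun x => φ.val (Function.update (Function.update w' 0 x) 1 y)) =
          fun x => φ.val (Function.update (Function.update w' 1 y) 0 x) := by
        funext x
        rw [Function.update_comm (by norm_num : (0 : ℕ) ≠ 1)]
      rw [h1]
      exact Fml.val_ext φ _ 0
    obtain ⟨b0, hb0⟩ := hC L (fun x y => φ.val (Function.update (Function.update w' 0 x) 1 y))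
      ⟨he1, he2⟩ a
    obtain ⟨b, hb⟩ := (hS L).2.2.2
      (fun y => ⨆ x : BSet L, (x.mem a ⊓ φ.val (Function.update (Function.update w' 0 x) 1 y)))
      (Ext.iSup fun x => (Ext.const _).inf (he1 x)) b0
    refine ⟨NM.mk U b, forall_mk fun y => ?_⟩
    rw [NM.mk_E, hb, U.inf_iff, ← ex_iff hF U _ ((Ext.mem_left a).inf (he2 y))]
    constructor
    · rintro ⟨-, x, hx⟩
      rw [U.inf_iff] at hx
      exact ⟨NM.mk U x, (NM.mk_E U x a).mpr hx.1, (hsat x y).mpr hx.2⟩
    · rintro ⟨x, hx1, hx2⟩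
      obtain ⟨x, rfl⟩ := NM.mk_surj U x
      have hx1' := (NM.mk_E U x a).mp hx1
      have hx2' := (hsat x y).mp hx2
      refine ⟨?_, x, U.inf_iff.mpr ⟨hx1', hx2'⟩⟩
      have h1 := U.mono (hb0 x) (U.inf hx1' (U.mono (le_iSup _ y) hx2'))
      rw [← ex_iff hF U _ ((Ext.mem_left b0).inf (he1 x))] at h1
      obtain ⟨y', hy'⟩ := h1
      rw [U.inf_iff] at hy'
      have h2 : NM.mk U y' = NM.mk U y :=
        (hfun _ hx1).unique ((hsat x y').mpr hy'.2) hx2
      rw [NM.mk_eq] at h2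
      exact U.mono (mem_congr_left y' y b0) (U.inf h2 hy'.1)
  · -- choice
    refine forall_mk fun a => fun hne hdis => ?_
    set b : L := (⨅ x : BSet L, (x.mem a ⇨ ⨆ y : BSet L, y.mem x)) ⊓
      (⨅ x : BSet L, ⨅ y : BSet L, ⨅ z : BSet L,
        ((x.mem a ⊓ y.mem a ⊓ z.mem x ⊓ z.mem y) ⇨ x.eq y)) with hb
    have hb1 : ∀ x : BSet L, b ⊓ x.mem a ≤ ⨆ y : BSet L, y.mem x := by
      intro x
      rw [← le_himp_iff]
      exact inf_le_left.trans (iInf_le _ x)
    have hb2 : ∀ x y z : BSet L, b ⊓ x.mem a ⊓ y.mem a ⊓ z.mem x ⊓ z.mem y ≤ x.eq y := by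
      intro x y z
      have h1 : b ⊓ (x.mem a ⊓ y.mem a ⊓ z.mem x ⊓ z.mem y) ≤ x.eq y := by
        rw [← le_himp_iff]
        exact inf_le_right.trans ((iInf_le _ x).trans ((iInf_le _ y).trans (iInf_le _ z)))
      refine le_trans (le_of_eq ?_) h1
      simp only [inf_assoc]
    have hUb : U.mem b := by
      rw [hb, U.inf_iff]
      constructor
      · rw [← all_iff hF U _ ((Ext.mem_left a).himp (Ext.iSup fun y => Ext.mem_right y))]
        intro x
        rw [U.himp_iff]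
        intro hx
        obtain ⟨y, hy⟩ := hne (NM.mk U x) ((NM.mk_E U x a).mpr hx)
        obtain ⟨y, rfl⟩ := NM.mk_surj U y
        exact U.mono (le_iSup (fun y : BSet L => y.mem x) y) ((NM.mk_E U y x).mp hy)
      · rw [← all_iff hF U _ (Ext.iInf fun y => Ext.iInf fun z =>
          ((((Ext.mem_left a).inf (Ext.const _)).inf (Ext.mem_right z)).inf (Ext.const _)).himp
            (Ext.eq_left y))]
        intro x
        rw [← all_iff hF U _ (Ext.iInf fun z =>
          ((((Ext.const _).inf (Ext.mem_left a)).inf (Ext.const _)).inf (Ext.mem_right z)).himp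
            (Ext.eq_right x))]
        intro y
        rw [← all_iff hF U _
          ((((Ext.const _).inf (Ext.mem_left x)).inf (Ext.mem_left y)).himp (Ext.const _))]
        intro z
        rw [U.himp_iff, U.inf_iff, U.inf_iff, U.inf_iff]
        rintro ⟨⟨⟨hx, hy⟩, hzx⟩, hzy⟩
        by_contra hcon
        rw [← NM.mk_eq] at hcon
        exact hdis (NM.mk U x) (NM.mk U y) ((NM.mk_E U x a).mpr hx) ((NM.mk_E U y a).mpr hy) hcon
          (NM.mk U z) ⟨(NM.mk_E U z x).mpr hzx, (NM.mk_E U z y).mpr hzy⟩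
    obtain ⟨c, hc1, hc2⟩ := hCh L a b hb1 hb2
    refine ⟨NM.mk U c, forall_mk fun x hx => ?_⟩
    rw [NM.mk_E] at hx
    have h1 := U.mono (hc1 x) (U.inf hUb hx)
    rw [← ex_iff hF U _ ((Ext.mem_left x).inf (Ext.mem_left c))] at h1
    obtain ⟨z, hz⟩ := h1
    have hz' := U.inf_iff.mp hz
    refine ⟨NM.mk U z, ⟨(NM.mk_E U z x).mpr hz'.1, (NM.mk_E U z c).mpr hz'.2⟩, ?_⟩
    intro z' hz1
    obtain ⟨z', rfl⟩ := NM.mk_surj U z'
    simp only [NM.mk_E] at hz1
    rw [NM.mk_eq]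
    exact U.mono (hc2 x z' z) (U.inf (U.inf (U.inf hUb hx) (U.inf hz1.1 hz1.2)) hz)

end Pool.Agent.Helper97.Ku.PkZFC
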