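import Pool.Agent.Helper97.Ku.GoalsC

namespace Pool.Agent.Helper97.Ku.PkPDS

open Set

theorem small_Om : Small.{0} Om := inferInstanceAs (Small.{0} (Set.Iio (Ordinal.omega 1 : Ordinal.{0})))

/-- The values allowed on `D`. -/
def Vl (D : Set Coord) : Set Val :=
  Set.range Val.nd ∪ ⋃ c : D, {x | ∃ ξ ν η, c.1 = Coord.col ξ ν ∧ η < ξ ∧ x = Val.od η}

theorem small_Vl (D : Set Coord) (hD : Small.{0} D) : Small.{0} (Vl D) := by
  have h0 : Small.{0} Om := small_Om
  have h1 : Small.{0} (Set Om) := inferInstance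
  have h2 : Small.{0} (Set.range Val.nd) := small_range _
  have h3 : ∀ c : D, Small.{0}
      ({x | ∃ ξ ν η, c.1 = Coord.col ξ ν ∧ η < ξ ∧ x = Val.od η} : Set Val) := by
    rintro ⟨c, hc⟩
    cases c with
    | row ξ =>
      have : ({x | ∃ ξ' ν η, (⟨Coord.row ξ, hc⟩ : D).1 = Coord.col ξ' ν ∧ η < ξ' ∧
          x = Val.od η} : Set Val) = ∅ := by
        ext x
        simp
      rw [this]
      infer_instance
    | col ξ ν =>
      have h4 : Small.{0} (Val.od '' (Set.Iio ξ)) := inferInstance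
      have h7 : ({x | ∃ ξ' ν' η, (⟨Coord.col ξ ν, hc⟩ : D).1 = Coord.col ξ' ν' ∧ η < ξ' ∧
          x = Val.od η} : Set Val) ⊆ Val.od '' (Set.Iio ξ) := by
        rintro x ⟨ξ', ν', η, h5, h6, rfl⟩
        simp only [Coord.col.injEq] at h5
        exact ⟨η, by rw [Set.mem_Iio, h5.1]; exact h6, rfl⟩
      exact small_subset h7
  have h5 : Small.{0} (⋃ c : D,
      ({x | ∃ ξ ν η, c.1 = Coord.col ξ ν ∧ η < ξ ∧ x = Val.od η} : Set Val)) :=
    small_iUnion _
  exact small_union _ _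

theorem mem_Vl {D : Set Coord} {p : Cond} (hp : p.supp ⊆ D) {c : Coord} {x : Val}
    (h : p.v c = some x) : x ∈ Vl D := by
  have hc : c ∈ D := hp (by simp [Cond.supp, h])
  have h1 := p.v_ok c x h
  cases x with
  | nd s => exact Or.inl ⟨s, rfl⟩
  | od η =>
    cases c with
    | row ξ => exact absurd h1 (by simp [Ok])
    | col ξ ν =>
      refine Or.inr (Set.mem_iUnion.mpr ⟨⟨_, hc⟩, ξ, ν, η, rfl, h1, rfl⟩)

open Classical in
theorem pds : G_PDS := by
  intro D hD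
  have h0 : Small.{0} Om := small_Om
  have hV : Small.{0} (Vl D) := small_Vl D hD
  have hS : Small.{0} (Set (Set Om)) := inferInstance
  have hO : Small.{0} (Set (Vl D)) := inferInstance
  have hF : Small.{0} (D → Set (Vl D)) := inferInstance
  have hT : Small.{0} (Om × Set (Set Om) × (D → Set (Vl D))) := inferInstance
  refine small_of_injective (β := Om × Set (Set Om) × (D → Set (Vl D)))
    (f := fun p => (p.1.g, p.1.S, fun c => {x | p.1.v c.1 = some x.1})) ?_
  rintro ⟨p, hp⟩ ⟨q, hq⟩ h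
  simp only [Prod.mk.injEq] at h
  obtain ⟨hg, hS', hv⟩ := h
  apply Subtype.ext
  refine Cond.ext hg hS' ?_
  funext c
  by_cases hc : c ∈ D
  · have h1 := congrFun hv ⟨c, hc⟩
    simp only at h1
    have h2 : ∀ x : Vl D, p.v c = some x.1 ↔ q.v c = some x.1 := fun x => by
      have := Set.ext_iff.mp h1 x
      exact this
    cases hpc : p.v c with
    | some x =>
      have h3 := (h2 ⟨x, mem_Vl hp hpc⟩).mp hpc
      exact h3.symm
    | none =>
      cases hqc : q.v c with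
      | none => rfl
      | some x =>
        have h3 := (h2 ⟨x, mem_Vl hq hqc⟩).mpr hqc
        rw [hpc] at h3
        exact absurd h3 (by simp)
  · have h1 : p.v c = none := by
      by_contra h; exact hc (hp h)
    have h2 : q.v c = none := by
      by_contra h; exact hc (hq h)
    rw [h1, h2]

/-- The stages. -/
noncomputable def St (e : Cond → Set Coord) (D0 : Set Coord) : Om → Set Coord :=
  (wellFounded_lt : WellFounded ((· < ·) : Om → Om → Prop)).fix fun ν ih =>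
    D0 ∪ ⋃ μ : {μ // μ < ν}, (ih μ.1 μ.2 ∪ ⋃ d : {d : Cond // d.supp ⊆ ih μ.1 μ.2}, e d.1)

theorem St_eq (e : Cond → Set Coord) (D0 : Set Coord) (ν : Om) :
    St e D0 ν = D0 ∪ ⋃ μ : {μ // μ < ν}, (St e D0 μ.1 ∪
      ⋃ d : {d : Cond // d.supp ⊆ St e D0 μ.1}, e d.1) :=
  WellFounded.fix_eq _ _ _

theorem small_St (hP : G_PDS) (e : Cond → Set Coord) (D0 : Set Coord)
    (he : ∀ d, Small.{0} (e d)) (h0 : Small.{0} D0) (ν : Om) : Small.{0} (St e D0 ν) := by
  induction ν using (wellFounded_lt : WellFounded ((· < ·) : Om → Om → Prop)).induction with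
  | _ ν ih =>
    rw [St_eq]
    have hO : Small.{0} Om := small_Om
    have h1 : Small.{0} {μ // μ < ν} := inferInstance
    have h2 : ∀ μ : {μ // μ < ν}, Small.{0} ((St e D0 μ.1 ∪
        ⋃ d : {d : Cond // d.supp ⊆ St e D0 μ.1}, e d.1 : Set Coord)) := by
      intro μ
      have h3 := ih μ.1 μ.2
      have h4 := hP (St e D0 μ.1) h3
      have h5 : Small.{0} (⋃ d : {d : Cond // d.supp ⊆ St e D0 μ.1}, e d.1) := by
        have : ∀ d : {d : Cond // d.supp ⊆ St e D0 μ.1}, Small.{0} (e d.1) := fun d => he d.1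
        exact small_iUnion _
      exact small_union _ _
    have h6 : Small.{0} (⋃ μ : {μ // μ < ν}, (St e D0 μ.1 ∪
      ⋃ d : {d : Cond // d.supp ⊆ St e D0 μ.1}, e d.1)) := small_iUnion _
    exact small_union _ _

theorem clo (hP : G_PDS) : G_CLO := by
  intro e D0 he h0
  have hO : Small.{0} Om := small_Om
  have hmono : ∀ μ ν : Om, μ < ν → St e D0 μ ⊆ St e D0 ν := by
    intro μ ν h c hc
    rw [St_eq e D0 ν]
    exact Or.inr (Set.mem_iUnion.mpr ⟨⟨μ, h⟩, Or.inl hc⟩)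
  have hmono' : ∀ μ ν : Om, μ ≤ ν → St e D0 μ ⊆ St e D0 ν := by
    intro μ ν h
    rcases h.eq_or_lt with rfl | h
    · exact subset_rfl
    · exact hmono μ ν h
  have hlim : ∀ ν : Om, ∃ ν' : Om, ν < ν' := by
    intro ν
    have h1 : (ν.1 + 1 : Ordinal.{0}) < Ordinal.omega 1 := by
      have : Order.IsSuccLimit (Ordinal.omega 1 : Ordinal.{0}) :=
        Cardinal.isSuccLimit_omega 1
      exact this.add_one_lt ν.2
    exact ⟨⟨_, h1⟩, by
      show ν.1 < ν.1 + 1
      exact lt_add_one _⟩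
  refine ⟨⋃ ν : Om, St e D0 ν, ?_, ?_, ?_⟩
  · intro c hc
    have h1 : (0 : Ordinal.{0}) < Ordinal.omega 1 := Ordinal.omega_pos 1
    refine Set.mem_iUnion.mpr ⟨⟨0, h1⟩, ?_⟩
    rw [St_eq]
    exact Or.inl hc
  · have : ∀ ν : Om, Small.{0} (St e D0 ν) := fun ν => small_St hP e D0 he h0 ν
    exact small_iUnion _
  · intro d hd
    have h1 : ∀ c : d.supp, ∃ ν : Om, c.1 ∈ St e D0 ν := fun c =>
      Set.mem_iUnion.mp (hd c.2)
    choose f hf using h1
    have hct : Countable d.supp := d.supp_countable.to_subtype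
    obtain ⟨ν, hν⟩ : ∃ ν : Om, ∀ c, f c ≤ ν := by
      rcases isEmpty_or_nonempty d.supp with hE | hN
      · have h1 : (0 : Ordinal.{0}) < Ordinal.omega 1 := Ordinal.omega_pos 1
        exact ⟨⟨0, h1⟩, fun c => hE.elim c⟩
      · obtain ⟨g, hg⟩ := exists_surjective_nat d.supp
        have h2 : (⨆ k : ℕ, ((f (g k) : Om) : Ordinal.{0})) < Ordinal.omega 1 :=
          Ordinal.iSup_lt_omega_one fun k => (f (g k)).2
        refine ⟨⟨_, h2⟩, fun c => ?_⟩
        obtain ⟨k, rfl⟩ := hg c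
        show ((f (g k)) : Ordinal.{0}) ≤ ⨆ k : ℕ, ((f (g k) : Om) : Ordinal.{0})
        exact Ordinal.le_iSup (fun k : ℕ => ((f (g k) : Om) : Ordinal.{0})) k
    obtain ⟨ν', hν'⟩ := hlim ν
    intro c hc
    refine Set.mem_iUnion.mpr ⟨ν', ?_⟩
    rw [St_eq]
    refine Or.inr (Set.mem_iUnion.mpr ⟨⟨ν, hν'⟩, Or.inr (Set.mem_iUnion.mpr ⟨⟨d, ?_⟩, hc⟩)⟩)
    intro c' hc'
    exact hmono' _ _ (hν ⟨c', hc'⟩) (hf ⟨c', hc'⟩)

end Pool.Agent.Helper97.Ku.PkPDS
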